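import Pool.Agent.helper62.MS.SpecA

/-!
# Row EQ3 of project MS: stretching of packets
-/

set_option autoImplicit false

open scoped MatrixGroups ContDiff Topology UpperHalfPlane ComplexConjugate
open UpperHalfPlane MeasureTheory Filter Set

namespace Pool.Agent.MS

open Pool.Agent.RS

theorem EQ3_cont (n : WithTop ℕ∞) (φ : ℍ → ℂ) (h : QU.CD n φ) : Continuous φ := by
  have h1 : ContinuousOn (QU.onC φ) {w : ℂ | 0 < w.im} := h.continuousOn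
  have h2 : Continuous (fun z : ℍ => QU.onC φ (z : ℂ)) :=
    h1.comp_continuous UpperHalfPlane.continuous_coe (fun z => z.im_pos)
  have h3 : (fun z : ℍ => QU.onC φ (z : ℂ)) = φ := by
    funext z
    simp only [QU.onC, ofComplex_apply]
  rwa [h3] at h2

/-- invariant continuous functions are integrable -/
theorem EQ3_int (hGFD : GFD_stmt) (hGBD : GBD_stmt) (Γ : Subgroup SL(2, ℝ)) (F : Set ℍ)
    (hΓ : QU.SurfaceGroup Γ) (hF : QU.NiceDom Γ F) (u : SL(2, ℝ) → ℝ) (hu : InvG Γ u) :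
    IntegrableOn u (dG F) mG := by
  obtain ⟨⟨hm, -, hfin, -⟩, -⟩ := hGFD Γ F hΓ hF
  obtain ⟨⟨m, hb⟩, -⟩ := hGBD Γ ℝ u hΓ hu
  have hfm : IsFiniteMeasure (mG.restrict (dG F)) := ⟨by rw [Measure.restrict_apply_univ]; exact hfin⟩
  exact Integrable.of_bound hu.1.aestronglyMeasurable m (ae_of_all _ hb)

/-- squares of differences of invariant functions -/
theorem EQ3_inv (Γ : Subgroup SL(2, ℝ)) (x y : SL(2, ℝ) → ℝ) (hx : InvG Γ x) (hy : InvG Γ y) :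
    InvG Γ (fun g => (x g - y g) ^ 2) :=
  ⟨(hx.1.sub hy.1).pow 2, fun γ g => by
    show (x (γ * g) - y (γ * g)) ^ 2 = _
    rw [hx.2 γ g, hy.2 γ g]⟩

/-- the triangle inequality -/
theorem EQ3_tri (hGFD : GFD_stmt) (hGBD : GBD_stmt) (Γ : Subgroup SL(2, ℝ)) (F : Set ℍ)
    (hΓ : QU.SurfaceGroup Γ) (hF : QU.NiceDom Γ F) (x y z : SL(2, ℝ) → ℝ) (hx : InvG Γ x)
    (hy : InvG Γ y) (hz : InvG Γ z) :
    iR F (fun g => (x g - z g) ^ 2) ≤
      2 * iR F (fun g => (x g - y g) ^ 2) + 2 * iR F (fun g => (y g - z g) ^ 2) := by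
  have h1 := EQ3_int hGFD hGBD Γ F hΓ hF _ (EQ3_inv Γ x z hx hz)
  have h2 := EQ3_int hGFD hGBD Γ F hΓ hF _ (EQ3_inv Γ x y hx hy)
  have h3 := EQ3_int hGFD hGBD Γ F hΓ hF _ (EQ3_inv Γ y z hy hz)
  unfold iR
  have h4 : ∫ g in dG F, (x g - z g) ^ 2 ∂mG ≤
      ∫ g in dG F, (2 * (x g - y g) ^ 2 + 2 * (y g - z g) ^ 2) ∂mG := by
    refine integral_mono h1 ((h2.const_mul 2).add (h3.const_mul 2)) fun g => ?_
    show (x g - z g) ^ 2 ≤ 2 * (x g - y g) ^ 2 + 2 * (y g - z g) ^ 2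
    nlinarith [sq_nonneg ((x g - y g) - (y g - z g))]
  rw [integral_add (h2.const_mul 2) (h3.const_mul 2), integral_const_mul,
    integral_const_mul] at h4
  exact h4

/-- comparison of the norms with the values, after a right translation -/
theorem EQ3_nrm (hGFD : GFD_stmt) (hGBD : GBD_stmt) (Γ : Subgroup SL(2, ℝ)) (F : Set ℍ)
    (hΓ : QU.SurfaceGroup Γ) (hF : QU.NiceDom Γ F) (p q : SL(2, ℝ) → ℂ) (h : SL(2, ℝ))
    (hp : InvG Γ p) (hq : InvG Γ q) :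
    iR F (fun g => (‖p (g * h)‖ - ‖q (g * h)‖) ^ 2) ≤ iR F (fun g => ‖p g - q g‖ ^ 2) := by
  have hw : InvG Γ (fun g => ‖p g - q g‖ ^ 2) :=
    ⟨(hp.1.sub hq.1).norm.pow 2, fun γ g => by
      show ‖p (γ * g) - q (γ * g)‖ ^ 2 = _
      rw [hp.2 γ g, hq.2 γ g]⟩
  have hwh : InvG Γ (fun g => ‖p (g * h) - q (g * h)‖ ^ 2) :=
    ⟨((hp.1.comp (continuous_mul_const h)).sub (hq.1.comp (continuous_mul_const h))).norm.pow 2,
      fun γ g => by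
        show ‖p (γ * g * h) - q (γ * g * h)‖ ^ 2 = _
        rw [mul_assoc, hp.2 γ, hq.2 γ]⟩
  have h1 := ((hGFD Γ F hΓ hF).2 ℝ).1 (fun g => ‖p g - q g‖ ^ 2) h hw.2
  have h2 := EQ3_int hGFD hGBD Γ F hΓ hF _ hwh
  unfold iR
  rw [← h1]
  refine integral_mono_of_nonneg (ae_of_all _ fun g => sq_nonneg _) h2 (ae_of_all _ fun g => ?_)
  show (‖p (g * h)‖ - ‖q (g * h)‖) ^ 2 ≤ ‖p (g * h) - q (g * h)‖ ^ 2
  have h3 := abs_norm_sub_norm_le (p (g * h)) (q (g * h))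
  rw [← sq_abs]
  exact pow_le_pow_left₀ (abs_nonneg _) h3 2

theorem EQ3_proof (hSTB : STB_stmt) (hEQ1 : EQ1_stmt) (hEQ2 : EQ2_stmt) (hGLC : GLC_stmt)
    (hGFD : GFD_stmt) (hGBD : GBD_stmt) (hCV1 : CV1_stmt) (hFL0 : FL0_stmt) : EQ3_stmt := by
  intro Γ F β α1 α2 T hΓ hF hβ hα1 hα2 hT
  obtain ⟨hs0, hss, hsS, -, hmono, -⟩ := hSTB
  have haM : ∀ s t, aM (s + t) = aM s * aM t := hGLC.2.2.2.2.2.2.2.2.2.2.1
  have haM0 : aM 0 = 1 := by
    have h := haM 0 0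
    rw [add_zero] at h
    exact (mul_eq_left.1 h.symm)
  have hβS : SB (1 / 4) β := hβ.1
  have hα1S : SB (1 / 8) α1 := hα1.1
  have hα14 : SB (1 / 4) α1 := (hmono (1 / 8) (1 / 4) α1 (by norm_num)).1 hα1S
  have hα24 : SB (1 / 4) α2 := (hmono (1 / 8) (1 / 4) α2 (by norm_num)).1 hα2.1
  have hst : ∀ o : ℝ, 0 ≤ o → SB (1 / 4) (st (-o) β) := by
    intro o ho
    refine (hmono (Real.exp (-o) * (1 / 4)) (1 / 4) _ ?_).1 (hsS (1 / 4) (-o) β hβS)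
    have h1 : Real.exp (-o) ≤ 1 := Real.exp_le_one_iff.2 (by linarith)
    linarith
  have hInvC : ∀ (r : ℝ) (φ : ℍ → ℂ), EigL Γ (1 / 4 + r ^ 2) φ → InvC Γ φ :=
    fun r φ h => ⟨EQ3_cont 2 φ h.1, h.2.1⟩
  have hpf : ∀ (β' α' : ℝ → ℝ) (r : ℝ) (φ : ℍ → ℂ), SB (1 / 4) β' → SB (1 / 4) α' →
      EigL Γ (1 / 4 + r ^ 2) φ → InvG Γ (pf β' α' r φ) := by
    intro β' α' r φ h1 h2 h3
    have h4 : TB (1 / 4) (pc β' α') := (hCV1.2.2 (1 / 4) α' β' h2 h1).1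
    have h5 := hFL0.2.1 (1 / 4) r (pc β' α') h4
    exact hFL0.2.2 Γ (pk r (pc β' α')) φ (EQ3_cont _ _ h5.1) h5.2 (hInvC r φ h3)
  have htr : ∀ (p : SL(2, ℝ) → ℂ) (h : SL(2, ℝ)), InvG Γ p → InvG Γ (fun g => ‖p (g * h)‖) := by
    intro p h hp
    exact ⟨(hp.1.comp (continuous_mul_const h)).norm, fun γ g => by
      show ‖p (γ * g * h)‖ = _
      rw [mul_assoc, hp.2 γ]⟩
  have hno : ∀ (p : SL(2, ℝ) → ℂ), InvG Γ p → InvG Γ (fun g => ‖p g‖) := by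
    intro p hp
    exact ⟨hp.1.norm, fun γ g => by
      show ‖p (γ * g)‖ = _
      rw [hp.2 γ]⟩
  -- the claim for the offset `o`
  have hstep : ∀ o δ : ℝ, 0 ≤ o → 0 ≤ δ → δ ≤ 1 / 8 →
      (∀ η : ℝ, 0 < η → ∃ r0 : ℝ, 1 ≤ r0 ∧ ∀ (r : ℝ) (φ : ℍ → ℂ), r0 ≤ r →
        EigL Γ (1 / 4 + r ^ 2) φ →
        r * iR F (fun g => (‖pf (st (-o) β) α1 r φ (g * aM o)‖ - ‖pf β α1 r φ g‖) ^ 2) ≤
          η * nn F φ) →
      ∀ η : ℝ, 0 < η → ∃ r0 : ℝ, 1 ≤ r0 ∧ ∀ (r : ℝ) (φ : ℍ → ℂ), r0 ≤ r →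
        EigL Γ (1 / 4 + r ^ 2) φ →
        r * iR F (fun g => (‖pf (st (-(o + δ)) β) α1 r φ (g * aM (o + δ))‖ -
          ‖pf β α1 r φ g‖) ^ 2) ≤ η * nn F φ := by
    intro o δ ho hδ hδ8 ih η hη
    have hsh : SB (1 / 4) (fun τ => α1 (τ - δ)) := by
      refine ⟨hα1S.1.comp (contDiff_id.sub contDiff_const), fun x hx => ?_⟩
      have h1 := abs_le.1 (hα1S.2 (x - δ) hx)
      exact abs_le.2 ⟨by linarith [h1.1], by linarith [h1.2]⟩
    have hie : ∫ x, (fun τ => α1 (τ - δ)) x = ∫ x, α1 x := integral_sub_right_eq_self α1 δ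
    obtain ⟨ra, hra, ha⟩ := ih (η / 4) (by positivity)
    obtain ⟨rb, hrb, hb⟩ := hEQ1 Γ F (st (-o) β) (fun τ => α1 (τ - δ)) α1 hΓ hF (hst o ho) hsh
      hα14 hie (η / 4) (by positivity)
    refine ⟨max ra rb, le_max_of_le_left hra, fun r φ hr hφ => ?_⟩
    have hr0 : 0 ≤ r := le_trans zero_le_one (le_trans (le_max_of_le_left hra) hr)
    have ha' := ha r φ (le_trans (le_max_left _ _) hr) hφ
    have hb' := hb r φ (le_trans (le_max_right _ _) hr) hφ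
    have hA : InvG Γ (pf (st (-(o + δ)) β) α1 r φ) :=
      hpf _ _ r φ (hst (o + δ) (by linarith)) hα14 hφ
    have hB : InvG Γ (pf (st (-o) β) α1 r φ) := hpf _ _ r φ (hst o ho) hα14 hφ
    have hC : InvG Γ (pf β α1 r φ) := hpf _ _ r φ hβS hα14 hφ
    have hD : InvG Γ (pf (st (-o) β) (fun τ => α1 (τ - δ)) r φ) := hpf _ _ r φ (hst o ho) hsh hφ
    have h1 := EQ3_tri hGFD hGBD Γ F hΓ hF
      (fun g => ‖pf (st (-(o + δ)) β) α1 r φ (g * aM (o + δ))‖)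
      (fun g => ‖pf (st (-o) β) α1 r φ (g * aM o)‖) (fun g => ‖pf β α1 r φ g‖)
      (htr _ _ hA) (htr _ _ hB) (hno _ hC)
    have h2 := EQ3_nrm hGFD hGBD Γ F hΓ hF (pf (st (-o) β) (fun τ => α1 (τ - δ)) r φ)
      (pf (st (-o) β) α1 r φ) (aM o) hD hB
    have h3 : ∀ g : SL(2, ℝ), ‖pf (st (-(o + δ)) β) α1 r φ (g * aM (o + δ))‖ =
        ‖pf (st (-o) β) (fun τ => α1 (τ - δ)) r φ (g * aM o)‖ := by
      intro g
      have h4 := hEQ2 Γ (st (-(o + δ)) β) α1 δ r φ (g * aM o) hΓ (hst (o + δ) (by linarith)) hα14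
        (hInvC r φ hφ)
      rw [hss, show δ + -(o + δ) = -o by ring] at h4
      rw [haM, ← mul_assoc, h4, norm_mul, show (-((r * δ : ℝ) : ℂ) * Complex.I) =
        ((-(r * δ) : ℝ) : ℂ) * Complex.I by push_cast; ring, Complex.norm_exp_ofReal_mul_I, one_mul]
    have h5 : (fun g => (‖pf (st (-(o + δ)) β) α1 r φ (g * aM (o + δ))‖ -
        ‖pf (st (-o) β) α1 r φ (g * aM o)‖) ^ 2) =
        fun g => (‖pf (st (-o) β) (fun τ => α1 (τ - δ)) r φ (g * aM o)‖ -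
        ‖pf (st (-o) β) α1 r φ (g * aM o)‖) ^ 2 := by
      funext g
      rw [h3 g]
    rw [h5] at h1
    have h6 := mul_le_mul_of_nonneg_left h1 hr0
    have h7 := mul_le_mul_of_nonneg_left h2 hr0
    linarith
  obtain ⟨n, hn⟩ := exists_nat_gt (8 * T)
  have hn1 : (0 : ℝ) < n := lt_of_le_of_lt (by linarith) hn
  have hδ0 : 0 ≤ T / n := by positivity
  have hδ8 : T / n ≤ 1 / 8 := by
    rw [div_le_iff₀ hn1]
    linarith
  have hall : ∀ k : ℕ, ∀ η : ℝ, 0 < η → ∃ r0 : ℝ, 1 ≤ r0 ∧ ∀ (r : ℝ) (φ : ℍ → ℂ), r0 ≤ r →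
      EigL Γ (1 / 4 + r ^ 2) φ →
      r * iR F (fun g => (‖pf (st (-(k * (T / n))) β) α1 r φ (g * aM (k * (T / n)))‖ -
        ‖pf β α1 r φ g‖) ^ 2) ≤ η * nn F φ := by
    intro k
    induction k with
    | zero =>
      intro η hη
      refine ⟨1, le_rfl, fun r φ hr hφ => ?_⟩
      have h1 : (fun g => (‖pf (st (-(((0 : ℕ) : ℝ) * (T / n))) β) α1 r φ
          (g * aM (((0 : ℕ) : ℝ) * (T / n)))‖ - ‖pf β α1 r φ g‖) ^ 2) = fun _ => (0 : ℝ) := by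
        funext g
        rw [Nat.cast_zero, zero_mul, neg_zero, hs0, haM0, mul_one, sub_self]
        norm_num
      rw [h1]
      unfold iR nn
      rw [integral_zero, mul_zero]
      exact mul_nonneg hη.le (integral_nonneg fun z => by positivity)
    | succ k ih =>
      have h1 := hstep (k * (T / n)) (T / n) (by positivity) hδ0 hδ8 ih
      have h2 : (((k + 1 : ℕ) : ℝ) * (T / n)) = k * (T / n) + T / n := by
        push_cast
        ring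
      rw [h2]
      exact h1
  intro η hη
  obtain ⟨ra, hra, ha⟩ := hall n (η / 4) (by positivity)
  have hie : ∫ x, α1 x = ∫ x, α2 x := by rw [hα1.2.2, hα2.2.2]
  obtain ⟨rb, hrb, hb⟩ := hEQ1 Γ F β α1 α2 hΓ hF hβS hα14 hα24 hie (η / 4) (by positivity)
  refine ⟨max ra rb, le_max_of_le_left hra, fun r φ hr hφ => ?_⟩
  have hr0 : 0 ≤ r := le_trans zero_le_one (le_trans (le_max_of_le_left hra) hr)
  have ha' := ha r φ (le_trans (le_max_left _ _) hr) hφ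
  have hb' := hb r φ (le_trans (le_max_right _ _) hr) hφ
  have hnT : (n : ℝ) * (T / n) = T := by field_simp
  rw [hnT] at ha'
  have hA : InvG Γ (pf (st (-T) β) α1 r φ) := hpf _ _ r φ (hst T hT) hα14 hφ
  have hB : InvG Γ (pf β α1 r φ) := hpf _ _ r φ hβS hα14 hφ
  have hC : InvG Γ (pf β α2 r φ) := hpf _ _ r φ hβS hα24 hφ
  have h1 := EQ3_tri hGFD hGBD Γ F hΓ hF
    (fun g => ‖pf (st (-T) β) α1 r φ (g * aM T)‖)
    (fun g => ‖pf β α1 r φ g‖) (fun g => ‖pf β α2 r φ g‖)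
    (htr _ _ hA) (hno _ hB) (hno _ hC)
  have h2 := EQ3_nrm hGFD hGBD Γ F hΓ hF (pf β α1 r φ) (pf β α2 r φ) 1 hB hC
  simp only [mul_one] at h2
  have h6 := mul_le_mul_of_nonneg_left h1 hr0
  have h7 := mul_le_mul_of_nonneg_left h2 hr0
  linarith

end Pool.Agent.MS
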