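import Pool.Agent.helper57.MS.Spec

set_option autoImplicit false

open Finset

namespace Pool.Agent.helper57.MS

open Pool.Agent.RRank Pool.Agent.helper26.IM

theorem SP2_card {d : ℕ} (I A B : Finset (Fin d)) :
    (I ∩ ((A \ B) ∪ (B \ A))).card + 2 * (I ∩ A ∩ B).card = (I ∩ A).card + (I ∩ B).card := by
  have h1 : I ∩ ((A \ B) ∪ (B \ A)) = ((I ∩ A) \ (I ∩ B)) ∪ ((I ∩ B) \ (I ∩ A)) := by
    ext x
    simp only [mem_inter, mem_union, mem_sdiff]
    tauto
  have h2 : Disjoint ((I ∩ A) \ (I ∩ B)) ((I ∩ B) \ (I ∩ A)) := by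
    rw [Finset.disjoint_left]
    intro x hx hx'
    simp only [mem_inter, mem_sdiff] at hx hx'
    tauto
  have h3 := Finset.card_sdiff_add_card_inter (I ∩ A) (I ∩ B)
  have h4 := Finset.card_sdiff_add_card_inter (I ∩ B) (I ∩ A)
  have h5 : (I ∩ A) ∩ (I ∩ B) = I ∩ A ∩ B := by
    ext x
    simp only [mem_inter]
    tauto
  have h6 : (I ∩ B) ∩ (I ∩ A) = I ∩ A ∩ B := by
    ext x
    simp only [mem_inter]
    tauto
  rw [h5] at h3
  rw [h6] at h4
  rw [h1, Finset.card_union_of_disjoint h2]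
  omega

theorem SP2_key {d : ℕ} (P P₁ : IndexPartition d) (h : ¬ P ≤ P₁) :
    ∃ A : Finset (Fin d), OddP A P₁ ∧ ¬ OddP A P := by
  have h' : ∃ L ∈ P.parts, ∀ c ∈ P₁.parts, ¬ L ≤ c := by
    by_contra hc
    push Not at hc
    exact h (fun L hL => hc L hL)
  obtain ⟨L, hL, hLc⟩ := h'
  obtain ⟨a, ha⟩ := P.nonempty_of_mem_parts hL
  obtain ⟨I, hI, haI⟩ := P₁.exists_mem (mem_univ a)
  obtain ⟨b, hb, hbI⟩ := Finset.not_subset.1 (hLc I hI)
  have hab : a ≠ b := by
    rintro rfl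
    exact hbI haI
  refine ⟨{a, b}, ⟨I, hI, ?_⟩, ?_⟩
  · have e : I ∩ {a, b} = {a} := by
      ext x
      simp only [mem_inter, mem_insert, mem_singleton]
      constructor
      · rintro ⟨h1, h2 | h2⟩
        · exact h2
        · rw [h2] at h1
          exact absurd h1 hbI
      · rintro rfl
        exact ⟨haI, Or.inl rfl⟩
    rw [e, card_singleton]
    exact odd_one
  · rintro ⟨J, hJ, hodd⟩
    by_cases hJL : J = L
    · have e : J ∩ {a, b} = {a, b} := by
        ext x
        simp only [mem_inter, mem_insert, mem_singleton]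
        constructor
        · rintro ⟨_, h2⟩
          exact h2
        · rintro (rfl | rfl)
          · exact ⟨by rw [hJL]; exact ha, Or.inl rfl⟩
          · exact ⟨by rw [hJL]; exact hb, Or.inr rfl⟩
      rw [e, card_pair hab] at hodd
      exact absurd hodd (by decide)
    · have hdis : Disjoint J L := P.disjoint hJ hL hJL
      have e : J ∩ {a, b} = ∅ := by
        ext x
        simp only [mem_inter, mem_insert, mem_singleton, notMem_empty, iff_false]
        rintro ⟨h1, h2 | h2⟩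
        · rw [h2] at h1
          exact Finset.disjoint_left.1 hdis h1 ha
        · rw [h2] at h1
          exact Finset.disjoint_left.1 hdis h1 hb
      rw [e, card_empty] at hodd
      exact absurd hodd (by decide)

theorem SP2 : SP2_stmt := by
  intro d P₁ P₂ P hP
  by_contra hcon
  have hn1 : ¬ P ≤ P₁ := fun h => hcon ⟨P₁, Or.inl rfl, h⟩
  have hn2 : ¬ P ≤ P₂ := fun h => hcon ⟨P₂, Or.inr rfl, h⟩
  obtain ⟨A₁, h1, h1'⟩ := SP2_key P P₁ hn1
  obtain ⟨A₂, h2, h2'⟩ := SP2_key P P₂ hn2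
  by_cases c1 : OddP A₁ P₂
  · apply h1'
    apply hP A₁
    rintro P' (rfl | rfl)
    · exact h1
    · exact c1
  by_cases c2 : OddP A₂ P₁
  · apply h2'
    apply hP A₂
    rintro P' (rfl | rfl)
    · exact c2
    · exact h2
  have ev : ∀ {A : Finset (Fin d)} {Q : IndexPartition d}, ¬ OddP A Q → ∀ I ∈ Q.parts,
      Even (I ∩ A).card := by
    intro A Q h I hI
    rw [← Nat.not_odd_iff_even]
    exact fun hodd => h ⟨I, hI, hodd⟩
  have h3 : OddP ((A₁ \ A₂) ∪ (A₂ \ A₁)) P := by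
    apply hP
    rintro P' (rfl | rfl)
    · obtain ⟨I, hI, hodd⟩ := h1
      refine ⟨I, hI, ?_⟩
      have h4 := SP2_card I A₁ A₂
      have h5 := ev c2 I hI
      rw [Nat.odd_iff] at hodd ⊢
      rw [Nat.even_iff] at h5
      omega
    · obtain ⟨I, hI, hodd⟩ := h2
      refine ⟨I, hI, ?_⟩
      have h4 := SP2_card I A₁ A₂
      have h5 := ev c1 I hI
      rw [Nat.odd_iff] at hodd ⊢
      rw [Nat.even_iff] at h5
      omega
  obtain ⟨I, hI, hodd⟩ := h3
  have h4 := SP2_card I A₁ A₂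
  have h5 := ev h1' I hI
  have h6 := ev h2' I hI
  rw [Nat.odd_iff] at hodd
  rw [Nat.even_iff] at h5 h6
  omega

end Pool.Agent.helper57.MS
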